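import Mathlib

set_option autoImplicit false
set_option linter.unusedSectionVars false
set_option linter.unusedSimpArgs false
set_option linter.unreachableTactic false
set_option linter.unusedTactic false

/-!
MP_e86abc_ag, Q1: for every `n ≥ 2` there are three `𝔾ₐ`-subgroups of `Aut(𝔸²ⁿ)` consisting of
symplectomorphisms which generate a group acting infinitely transitively on `𝔸²ⁿ`.
-/

open MvPolynomial

namespace Pool.Agent.Results.MP_e86abc_ag.ThreeSymplecticSubgroups

/-! ### Definitions -/

/-- The points of `𝔸²ⁿ`; the coordinates are `xᵢ` (index `Sum.inl i`) and `yᵢ` (index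
`Sum.inr i`). -/
abbrev Pt (n : ℕ) (K : Type*) : Type _ := Fin n ⊕ Fin n → K

/-- `U` is a `𝔾ₐ`-subgroup: the image of a nontrivial regular action of `𝔾ₐ` on `𝔸²ⁿ`, i.e. of an
action for which `(t, p) ↦ t • p` is given by polynomials in `t` (the variable `none`) and the
coordinates of `p`. -/
def IsGaSubgroup {n : ℕ} {K : Type*} [Field K] (U : Subgroup (Equiv.Perm (Pt n K))) : Prop :=
  ∃ ρ : Multiplicative K →* Equiv.Perm (Pt n K),
    (∃ P : Fin n ⊕ Fin n → MvPolynomial (Option (Fin n ⊕ Fin n)) K,
      ∀ (t : K) (p : Pt n K) (i : Fin n ⊕ Fin n),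
        ρ (Multiplicative.ofAdd t) p i = eval (fun o => o.elim t p) (P i)) ∧
    (∃ t, ρ t ≠ 1) ∧ U = ρ.range

/-- the standard symplectic form `∑ dxᵢ ∧ dyᵢ` -/
def omega {n : ℕ} {K : Type*} [Field K] (u v : Pt n K) : K :=
  ∑ i, (u (Sum.inl i) * v (Sum.inr i) - u (Sum.inr i) * v (Sum.inl i))

/-- `e` is given by polynomials and its differential (the Jacobian matrix) preserves `omega` at
every point. -/
def IsSymplectic {n : ℕ} {K : Type*} [Field K] (e : Equiv.Perm (Pt n K)) : Prop :=
  ∃ P : Fin n ⊕ Fin n → MvPolynomial (Fin n ⊕ Fin n) K,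
    (∀ p i, e p i = eval p (P i)) ∧
    ∀ p u v : Pt n K,
      omega (fun i => ∑ j, eval p (pderiv j (P i)) * u j)
        (fun i => ∑ j, eval p (pderiv j (P i)) * v j) = omega u v

/-- infinite transitivity of a group of permutations -/
def InfinitelyTransitive {X : Type*} (H : Subgroup (Equiv.Perm X)) : Prop :=
  ∀ (m : ℕ) (x y : Fin m → X), Function.Injective x → Function.Injective y →
    ∃ h ∈ H, ∀ i, h (x i) = y i

/-! ### Shears -/

variable {n : ℕ} {K : Type*} [Field K]

/-- the gradient -/
noncomputable def grad (f : MvPolynomial (Fin n) K) (x : Fin n → K) : Fin n → K :=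
  fun i => eval x (pderiv i f)

lemma grad_add (f g : MvPolynomial (Fin n) K) (x : Fin n → K) :
    grad (f + g) x = grad f x + grad g x := by
  funext i; simp [grad]

lemma grad_smul (t : K) (f : MvPolynomial (Fin n) K) (x : Fin n → K) :
    grad (t • f) x = t • grad f x := by
  funext i; simp [grad, smul_eval]

lemma grad_zero (x : Fin n → K) : grad (0 : MvPolynomial (Fin n) K) x = 0 := by
  funext i; simp [grad]

lemma pt_cases (p : Pt n K) : ∃ x y, p = Sum.elim x y :=
  ⟨p ∘ Sum.inl, p ∘ Sum.inr, (Sum.elim_comp_inl_inr p).symm⟩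

/-- the shear `(x, y) ↦ (x, y + ∇f(x))` -/
noncomputable def sx (f : MvPolynomial (Fin n) K) : Equiv.Perm (Pt n K) where
  toFun p := Sum.elim (p ∘ Sum.inl) (p ∘ Sum.inr + grad f (p ∘ Sum.inl))
  invFun p := Sum.elim (p ∘ Sum.inl) (p ∘ Sum.inr - grad f (p ∘ Sum.inl))
  left_inv p := by
    obtain ⟨x, y, rfl⟩ := pt_cases p
    simp
  right_inv p := by
    obtain ⟨x, y, rfl⟩ := pt_cases p
    simp

/-- the shear `(x, y) ↦ (x + ∇f(y), y)` -/
noncomputable def sy (f : MvPolynomial (Fin n) K) : Equiv.Perm (Pt n K) where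
  toFun p := Sum.elim (p ∘ Sum.inl + grad f (p ∘ Sum.inr)) (p ∘ Sum.inr)
  invFun p := Sum.elim (p ∘ Sum.inl - grad f (p ∘ Sum.inr)) (p ∘ Sum.inr)
  left_inv p := by
    obtain ⟨x, y, rfl⟩ := pt_cases p
    simp
  right_inv p := by
    obtain ⟨x, y, rfl⟩ := pt_cases p
    simp

@[simp] lemma sx_elim (f : MvPolynomial (Fin n) K) (x y : Fin n → K) :
    sx f (Sum.elim x y) = Sum.elim x (y + grad f x) := rfl

@[simp] lemma sy_elim (f : MvPolynomial (Fin n) K) (x y : Fin n → K) :
    sy f (Sum.elim x y) = Sum.elim (x + grad f y) y := rfl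

lemma sx_add (f g : MvPolynomial (Fin n) K) : sx (f + g) = sx f * sx g := by
  ext1 p
  obtain ⟨x, y, rfl⟩ := pt_cases p
  simp only [sx_elim, Equiv.Perm.mul_apply, grad_add]
  congr 1
  abel

lemma sy_add (f g : MvPolynomial (Fin n) K) : sy (f + g) = sy f * sy g := by
  ext1 p
  obtain ⟨x, y, rfl⟩ := pt_cases p
  simp only [sy_elim, Equiv.Perm.mul_apply, grad_add]
  congr 1
  abel

lemma sx_zero : sx (0 : MvPolynomial (Fin n) K) = 1 := by
  ext1 p
  obtain ⟨x, y, rfl⟩ := pt_cases p
  simp [grad_zero]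

lemma sy_zero : sy (0 : MvPolynomial (Fin n) K) = 1 := by
  ext1 p
  obtain ⟨x, y, rfl⟩ := pt_cases p
  simp [grad_zero]

/-- the potentials `f` for which all `x`-shears `t f` belong to `G` -/
noncomputable def MX (G : Subgroup (Equiv.Perm (Pt n K))) :
    Submodule K (MvPolynomial (Fin n) K) where
  carrier := {f | ∀ t : K, sx (t • f) ∈ G}
  add_mem' {f g} hf hg t := by
    rw [smul_add, sx_add]
    exact G.mul_mem (hf t) (hg t)
  zero_mem' t := by
    rw [smul_zero, sx_zero]
    exact G.one_mem
  smul_mem' c f hf t := by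
    rw [smul_smul]
    exact hf _

/-- the potentials `f` for which all `y`-shears `t f` belong to `G` -/
noncomputable def MY (G : Subgroup (Equiv.Perm (Pt n K))) :
    Submodule K (MvPolynomial (Fin n) K) where
  carrier := {f | ∀ t : K, sy (t • f) ∈ G}
  add_mem' {f g} hf hg t := by
    rw [smul_add, sy_add]
    exact G.mul_mem (hf t) (hg t)
  zero_mem' t := by
    rw [smul_zero, sy_zero]
    exact G.one_mem
  smul_mem' c f hf t := by
    rw [smul_smul]
    exact hf _

lemma sx_mem {G : Subgroup (Equiv.Perm (Pt n K))} {f} (hf : f ∈ MX G) : sx f ∈ G := by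
  have := hf 1
  rwa [one_smul] at this

lemma sy_mem {G : Subgroup (Equiv.Perm (Pt n K))} {f} (hf : f ∈ MY G) : sy f ∈ G := by
  have := hf 1
  rwa [one_smul] at this

/-! ### Scaling -/

lemma eval_bind (x : Fin n → K) (g : Fin n → MvPolynomial (Fin n) K)
    (f : MvPolynomial (Fin n) K) : eval x (bind₁ g f) = eval (fun i => eval x (g i)) f := by
  induction f using MvPolynomial.induction_on with
  | C a => simp
  | add p q hp hq => rw [map_add, map_add, map_add, hp, hq]
  | mul_X p j hp => rw [map_mul, map_mul, map_mul, hp, bind₁_X_right, eval_X]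

/-- `f(μ x)` -/
noncomputable def scale (μ : K) : MvPolynomial (Fin n) K →ₐ[K] MvPolynomial (Fin n) K :=
  bind₁ (fun i => C μ * X i)

lemma eval_scale (μ : K) (f : MvPolynomial (Fin n) K) (x : Fin n → K) :
    eval x (scale μ f) = eval (μ • x) f := by
  rw [scale, eval_bind]
  congr 2
  funext i
  simp

lemma pderiv_scale (μ : K) (f : MvPolynomial (Fin n) K) (i : Fin n) :
    pderiv i (scale μ f) = C μ * scale μ (pderiv i f) := by
  classical
  induction f using MvPolynomial.induction_on with
  | C a => simp [scale]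
  | add p q hp hq => rw [map_add, map_add, hp, hq, map_add, map_add]; ring
  | mul_X p j hp =>
    rw [map_mul, pderiv_mul, hp, pderiv_mul, map_add, map_mul, map_mul]
    have h1 : scale μ (X j : MvPolynomial (Fin n) K) = C μ * X j := by simp [scale]
    rw [h1, pderiv_C_mul, pderiv_X]
    by_cases hij : i = j
    · subst hij; simp; ring
    · rw [Pi.single_eq_of_ne (Ne.symm hij)]; simp; ring

lemma grad_scale (μ : K) (f : MvPolynomial (Fin n) K) (x : Fin n → K) :
    grad (scale μ f) x = μ • grad f (μ • x) := by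
  funext i
  simp only [grad, pderiv_scale, map_mul, eval_C, eval_scale, Pi.smul_apply, smul_eq_mul]

lemma scale_one (f : MvPolynomial (Fin n) K) : scale 1 f = f := by
  simp [scale]

/-- the quadratic form `½ ∑ xᵢ²` -/
noncomputable def q : MvPolynomial (Fin n) K := C (1 / 2) * ∑ i, X i ^ 2

lemma grad_q [CharZero K] (x : Fin n → K) : grad (q : MvPolynomial (Fin n) K) x = x := by
  classical
  funext i
  simp only [grad, q, pderiv_C_mul, map_sum, map_mul, eval_C]
  have : ∀ j, eval x (pderiv i (X j ^ 2 : MvPolynomial (Fin n) K)) =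
      if j = i then 2 * x i else 0 := by
    intro j
    rw [pderiv_pow, pderiv_X]
    by_cases hij : j = i
    · subst hij; simp
    · rw [Pi.single_eq_of_ne hij]; simp [hij]
  rw [Finset.sum_congr rfl (fun j _ => this j)]
  simp

section conj

variable [CharZero K] (G : Subgroup (Equiv.Perm (Pt n K)))

/-- if the quadratic shears are in `G`, then potentials may be rotated and scaled -/
lemma scale_mem_MY (h1 : q ∈ MX G) (h2 : q ∈ MY G) {f : MvPolynomial (Fin n) K} (hf : f ∈ MX G)
    (μ : K) (hμ : μ ≠ 0) : scale μ f ∈ MY G := by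
  intro t
  obtain ⟨W, hW⟩ : ∃ W : Equiv.Perm (Pt n K),
      W = sy ((-μ) • q) * sx (μ⁻¹ • q) * sy ((-μ) • q) := ⟨_, rfl⟩
  have hWG : W ∈ G := by
    rw [hW]
    exact G.mul_mem (G.mul_mem (h2 _) (h1 _)) (h2 _)
  have hW2 : ∀ x y, W (Sum.elim x y) = Sum.elim ((-μ) • y) (μ⁻¹ • x) := by
    intro x y
    rw [hW]
    simp only [sx_elim, sy_elim, Equiv.Perm.mul_apply, grad_smul, grad_q]
    have e1 : y + μ⁻¹ • (x + -μ • y) = μ⁻¹ • x := by
      rw [smul_add, smul_smul, mul_neg, inv_mul_cancel₀ hμ]; simp
    rw [e1, smul_smul]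
    congr 1
    rw [neg_mul, mul_inv_cancel₀ hμ]; simp
  have key : sy (t • scale μ f) = W * sx ((-t) • f) * W⁻¹ := by
    rw [eq_mul_inv_iff_mul_eq]
    ext1 p
    obtain ⟨x, y, rfl⟩ := pt_cases p
    simp only [Equiv.Perm.mul_apply, sx_elim, hW2, sy_elim, grad_smul, grad_scale, smul_smul,
      mul_inv_cancel₀ hμ, one_smul, smul_add, show -μ * -t = t * μ by ring]
  rw [key]
  exact G.mul_mem (G.mul_mem hWG (hf _)) (G.inv_mem hWG)

lemma scale_mem_MX (h1 : q ∈ MX G) (h2 : q ∈ MY G) {f : MvPolynomial (Fin n) K} (hf : f ∈ MY G)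
    (μ : K) (hμ : μ ≠ 0) : scale μ f ∈ MX G := by
  intro t
  obtain ⟨W, hW⟩ : ∃ W : Equiv.Perm (Pt n K),
      W = sx ((-μ) • q) * sy (μ⁻¹ • q) * sx ((-μ) • q) := ⟨_, rfl⟩
  have hWG : W ∈ G := by
    rw [hW]
    exact G.mul_mem (G.mul_mem (h1 _) (h2 _)) (h1 _)
  have hW2 : ∀ x y, W (Sum.elim x y) = Sum.elim (μ⁻¹ • y) ((-μ) • x) := by
    intro x y
    rw [hW]
    simp only [sx_elim, sy_elim, Equiv.Perm.mul_apply, grad_smul, grad_q]
    have e1 : x + μ⁻¹ • (y + -μ • x) = μ⁻¹ • y := by
      rw [smul_add, smul_smul, mul_neg, inv_mul_cancel₀ hμ]; simp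
    rw [e1, smul_smul]
    congr 1
    rw [neg_mul, mul_inv_cancel₀ hμ]; simp
  have key : sx (t • scale μ f) = W * sy ((-t) • f) * W⁻¹ := by
    rw [eq_mul_inv_iff_mul_eq]
    ext1 p
    obtain ⟨x, y, rfl⟩ := pt_cases p
    simp only [Equiv.Perm.mul_apply, sx_elim, hW2, sy_elim, grad_smul, grad_scale, smul_smul,
      mul_inv_cancel₀ hμ, one_smul, smul_add, show -μ * -t = t * μ by ring]
  rw [key]
  exact G.mul_mem (G.mul_mem hWG (hf _)) (G.inv_mem hWG)

lemma MX_eq_MY (h1 : q ∈ MX G) (h2 : q ∈ MY G) : MX G = MY G := by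
  apply le_antisymm
  · intro f hf
    have := scale_mem_MY G h1 h2 hf 1 one_ne_zero
    rwa [scale_one] at this
  · intro f hf
    have := scale_mem_MX G h1 h2 hf 1 one_ne_zero
    rwa [scale_one] at this

/-! ### Extraction of coefficients -/

omit G in
/-- if a polynomial curve takes values in a subspace at all nonzero points, its coefficients are
in the subspace -/
lemma coeff_mem (M : Submodule K (MvPolynomial (Fin n) K))
    (P : Polynomial (MvPolynomial (Fin n) K)) (h : ∀ t : K, t ≠ 0 → P.eval (C t) ∈ M) (m : ℕ) :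
    P.coeff m ∈ M := by
  classical
  by_cases hm : m ≤ P.natDegree
  swap
  · rw [Polynomial.coeff_eq_zero_of_natDegree_lt (by omega)]
    exact M.zero_mem
  let N := P.natDegree + 1
  let v : Fin N → K := fun i => ((i : ℕ) : K) + 1
  have hv : Function.Injective v := by
    intro i j hij
    have h1 : (((i : ℕ) + 1 : ℕ) : K) = (((j : ℕ) + 1 : ℕ) : K) := by
      push_cast
      exact hij
    have h2 := Nat.cast_injective h1
    exact Fin.ext (by omega)
  have hdet : IsUnit (Matrix.vandermonde v).det := by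
    rw [isUnit_iff_ne_zero]
    exact Matrix.det_vandermonde_ne_zero_iff.mpr hv
  have h1 : ∀ i, P.eval (C (v i)) = ∑ j : Fin N, Matrix.vandermonde v i j • P.coeff j := by
    intro i
    rw [Polynomial.eval_eq_sum_range, Finset.sum_range]
    apply Finset.sum_congr rfl
    intro j _
    rw [Matrix.vandermonde_apply, smul_eq_C_mul, C_pow, mul_comm]
  have h2 : P.coeff m = ∑ i : Fin N, (Matrix.vandermonde v)⁻¹ ⟨m, by omega⟩ i • P.eval (C (v i)) := by
    have h3 : ∀ i : Fin N, (Matrix.vandermonde v)⁻¹ ⟨m, by omega⟩ i • P.eval (C (v i)) =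
        ∑ j : Fin N, ((Matrix.vandermonde v)⁻¹ ⟨m, by omega⟩ i * Matrix.vandermonde v i j) •
          P.coeff j := by
      intro i
      rw [h1, Finset.smul_sum]
      simp only [smul_smul]
    rw [Finset.sum_congr rfl (fun i _ => h3 i), Finset.sum_comm]
    have h4 : ∀ j : Fin N, ∑ i : Fin N, ((Matrix.vandermonde v)⁻¹ ⟨m, by omega⟩ i *
        Matrix.vandermonde v i j) • P.coeff j = (if (⟨m, by omega⟩ : Fin N) = j then (1 : K) else 0) •
          P.coeff j := by
      intro j
      rw [← Finset.sum_smul, ← Matrix.mul_apply, Matrix.nonsing_inv_mul _ hdet, Matrix.one_apply]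
    rw [Finset.sum_congr rfl (fun j _ => h4 j)]
    simp
  rw [h2]
  apply M.sum_mem
  intro i _
  apply M.smul_mem
  apply h
  have : ((i : ℕ) : K) + 1 ≠ 0 := Nat.cast_add_one_ne_zero (i : ℕ)
  exact this

end conj

/-! ### Substitutions -/

/-- the substitution `xᵢ ↦ xᵢ + t x_k^c` -/
noncomputable def sub (i k : Fin n) (c : ℕ) (t : K) :
    MvPolynomial (Fin n) K →ₐ[K] MvPolynomial (Fin n) K :=
  bind₁ (fun j => if j = i then X i + C t * X k ^ c else X j)

lemma sub_X (i k : Fin n) (c : ℕ) (t : K) (j : Fin n) :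
    sub i k c t (X j) = if j = i then X i + C t * X k ^ c else X j := by
  simp [sub]

lemma eval_sub (i k : Fin n) (c : ℕ) (t : K) (f : MvPolynomial (Fin n) K) (x : Fin n → K) :
    eval x (sub i k c t f) = eval (Function.update x i (x i + t * x k ^ c)) f := by
  rw [sub, eval_bind]
  congr 2
  funext j
  by_cases hj : j = i
  · subst hj; simp
  · simp [hj]

lemma pderiv_sub_ne (i k : Fin n) (c : ℕ) (t : K) (f : MvPolynomial (Fin n) K)
    (j : Fin n) (hj : j ≠ k) :
    pderiv j (sub i k c t f) = sub i k c t (pderiv j f) := by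
  classical
  induction f using MvPolynomial.induction_on with
  | C a => simp [sub]
  | add p q hp hq => rw [map_add, map_add, hp, hq, map_add, map_add]
  | mul_X p l hp =>
    rw [map_mul, pderiv_mul, hp, pderiv_mul, map_add, map_mul, map_mul]
    congr 2
    rw [sub_X, pderiv_X]
    by_cases hl : l = i
    · subst hl
      rw [if_pos rfl, map_add, pderiv_C_mul, pderiv_pow, pderiv_X, pderiv_X,
        Pi.single_eq_of_ne (Ne.symm hj)]
      by_cases hlj : j = l
      · subst hlj; simp
      · rw [Pi.single_eq_of_ne (Ne.symm hlj)]; simp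
    · rw [if_neg hl, pderiv_X]
      by_cases hlj : l = j
      · subst hlj; simp
      · rw [Pi.single_eq_of_ne hlj]; simp

lemma pderiv_sub_eq (i k : Fin n) (hik : i ≠ k) (c : ℕ) (t : K) (f : MvPolynomial (Fin n) K) :
    pderiv k (sub i k c t f) = sub i k c t (pderiv k f) +
      C (t * c) * X k ^ (c - 1) * sub i k c t (pderiv i f) := by
  classical
  induction f using MvPolynomial.induction_on with
  | C a => simp [sub]
  | add p q hp hq =>
    rw [map_add, map_add, hp, hq, map_add, map_add, map_add, map_add]; ring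
  | mul_X p l hp =>
    rw [map_mul, pderiv_mul, hp, pderiv_mul, map_add, map_mul, map_mul, pderiv_mul, map_add,
      map_mul, map_mul]
    rw [sub_X, pderiv_X, pderiv_X]
    by_cases hl : l = i
    · subst hl
      rw [if_pos rfl, map_add, pderiv_C_mul, pderiv_pow, pderiv_X, pderiv_X,
        Pi.single_eq_same, Pi.single_eq_of_ne hik, Pi.single_eq_same]
      simp only [map_zero, mul_one, mul_zero, add_zero, zero_add, map_natCast]
      ring
    · rw [if_neg hl, Pi.single_eq_of_ne (M := fun _ => MvPolynomial (Fin n) K) hl]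
      by_cases hlk : l = k
      · subst hlk
        rw [pderiv_X, Pi.single_eq_same]; simp; ring
      · rw [pderiv_X, Pi.single_eq_of_ne (Ne.symm (Ne.symm hlk))]; simp; ring

/-- the curve `t ↦ sub t f` -/
noncomputable def Sub (i k : Fin n) (c : ℕ) (f : MvPolynomial (Fin n) K) :
    Polynomial (MvPolynomial (Fin n) K) :=
  aeval (fun j => if j = i then Polynomial.C (X i) + Polynomial.X * Polynomial.C (X k ^ c)
    else Polynomial.C (X j)) f

lemma Sub_mul_X (i k : Fin n) (c : ℕ) (f : MvPolynomial (Fin n) K) (j : Fin n) :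
    Sub i k c (f * X j) = Sub i k c f * (if j = i then Polynomial.C (X i) +
      Polynomial.X * Polynomial.C (X k ^ c) else Polynomial.C (X j)) := by
  simp only [Sub, map_mul, aeval_X]

lemma Sub_C (i k : Fin n) (c : ℕ) (a : K) :
    Sub i k c (C a : MvPolynomial (Fin n) K) = Polynomial.C (C a) := by
  simp only [Sub, algHom_C]
  rfl

lemma eval_Sub (i k : Fin n) (c : ℕ) (f : MvPolynomial (Fin n) K) (t : K) :
    (Sub i k c f).eval (C t) = sub i k c t f := by
  induction f using MvPolynomial.induction_on with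
  | C a => rw [Sub_C]; simp [sub]
  | add p q hp hq =>
    have : Sub i k c (p + q) = Sub i k c p + Sub i k c q := by simp [Sub]
    rw [this, Polynomial.eval_add, hp, hq, map_add]
  | mul_X p j hp =>
    rw [Sub_mul_X, Polynomial.eval_mul, hp, map_mul, sub_X]
    by_cases hj : j = i
    · rw [if_pos hj, if_pos hj]; simp
    · rw [if_neg hj, if_neg hj]; simp

lemma coeff_Sub (i k : Fin n) (c : ℕ) (f : MvPolynomial (Fin n) K) :
    (Sub i k c f).coeff 0 = f ∧ (Sub i k c f).coeff 1 = X k ^ c * pderiv i f := by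
  classical
  induction f using MvPolynomial.induction_on with
  | C a =>
    rw [Sub_C]
    refine ⟨Polynomial.coeff_C_zero, ?_⟩
    rw [Polynomial.coeff_C_of_ne_zero one_ne_zero, pderiv_C, mul_zero]
  | add p q hp hq =>
    have : Sub i k c (p + q) = Sub i k c p + Sub i k c q := by simp [Sub]
    rw [this, Polynomial.coeff_add, Polynomial.coeff_add, hp.1, hp.2, hq.1, hq.2]
    refine ⟨rfl, ?_⟩
    rw [map_add]; ring
  | mul_X p j hp =>
    rw [Sub_mul_X]
    constructor
    · rw [Polynomial.mul_coeff_zero, hp.1]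
      by_cases hj : j = i
      · rw [if_pos hj, hj]; simp
      · rw [if_neg hj]; simp
    · rw [Polynomial.mul_coeff_one, hp.1, hp.2, pderiv_mul, pderiv_X]
      by_cases hj : j = i
      · subst hj
        rw [if_pos rfl, Pi.single_eq_same]
        simp only [Polynomial.coeff_add, Polynomial.coeff_C_zero, Polynomial.mul_coeff_zero,
          Polynomial.coeff_X_zero, zero_mul, add_zero, Polynomial.coeff_C_succ,
          Polynomial.coeff_X_mul, zero_add]
        ring
      · rw [if_neg hj, Pi.single_eq_of_ne hj]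
        simp only [Polynomial.coeff_C_zero, Polynomial.coeff_C_succ]
        ring

section theta

variable [CharZero K] (G : Subgroup (Equiv.Perm (Pt n K)))

omit G [CharZero K] in
/-- conjugation of `x`-shears by the flow of `t x_k^c yᵢ` -/
lemma conj_theta (i k : Fin n) (hik : i ≠ k) (c : ℕ) (t : K) (T : Equiv.Perm (Pt n K))
    (hT : ∀ x y, T (Sum.elim x y) = Sum.elim (Function.update x i (x i + t * x k ^ c))
      (Function.update y k (y k - t * c * x k ^ (c - 1) * y i)))
    (f : MvPolynomial (Fin n) K) : sx (sub i k c t f) = T⁻¹ * sx f * T := by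
  rw [mul_assoc, eq_inv_mul_iff_mul_eq]
  ext1 p
  obtain ⟨x, y, rfl⟩ := pt_cases p
  simp only [Equiv.Perm.mul_apply, sx_elim, hT]
  congr 1
  funext j
  by_cases hj : j = k
  · subst hj
    simp only [Function.update_self, Pi.add_apply, grad, pderiv_sub_eq i j hik,
      pderiv_sub_ne i j c t f i hik, map_add, map_mul, eval_sub, eval_C, map_pow, eval_X]
    ring
  · simp only [Function.update_of_ne hj, Pi.add_apply, grad, pderiv_sub_ne i k c t f j hj,
      eval_sub]

omit [CharZero K] in
lemma step (i k : Fin n) (hik : i ≠ k) (c : ℕ)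
    (hT : ∀ t : K, ∃ T ∈ G, ∀ x y, T (Sum.elim x y) =
      Sum.elim (Function.update x i (x i + t * x k ^ c))
      (Function.update y k (y k - t * c * x k ^ (c - 1) * y i)))
    {f : MvPolynomial (Fin n) K} (hf : f ∈ MX G) (t : K) : sub i k c t f ∈ MX G := by
  intro s
  obtain ⟨T, hTG, hT⟩ := hT t
  rw [← map_smul, conj_theta i k hik c t T hT]
  exact G.mul_mem (G.mul_mem (G.inv_mem hTG) (hf s)) hTG

/-- the main step -/
lemma step' (i k : Fin n) (hik : i ≠ k) (c : ℕ)
    (hT : ∀ t : K, ∃ T ∈ G, ∀ x y, T (Sum.elim x y) =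
      Sum.elim (Function.update x i (x i + t * x k ^ c))
      (Function.update y k (y k - t * c * x k ^ (c - 1) * y i)))
    {f : MvPolynomial (Fin n) K} (hf : f ∈ MX G) : X k ^ c * pderiv i f ∈ MX G := by
  rw [← (coeff_Sub i k c f).2]
  apply coeff_mem
  intro t _
  rw [eval_Sub]
  exact step G i k hik c hT hf t

end theta

section generate

variable [CharZero K] (G : Subgroup (Equiv.Perm (Pt n K)))

lemma grad_X (i : Fin n) (x : Fin n → K) :
    grad (X i : MvPolynomial (Fin n) K) x = Pi.single i 1 := by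
  classical
  funext j
  rw [grad, pderiv_X]
  by_cases h : j = i
  · subst h; simp
  · rw [Pi.single_eq_of_ne h, Pi.single_eq_of_ne (Ne.symm h), map_zero]

lemma grad_sq (i : Fin n) (x : Fin n → K) :
    grad (X i ^ 2 : MvPolynomial (Fin n) K) x = Pi.single i (2 * x i) := by
  classical
  funext j
  rw [grad, pderiv_pow, pderiv_X]
  by_cases h : j = i
  · subst h; simp
  · rw [Pi.single_eq_of_ne h, Pi.single_eq_of_ne (Ne.symm h)]; simp

lemma theta_translation (i k : Fin n) (h : (X i : MvPolynomial (Fin n) K) ∈ MY G) (t : K) :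
    ∃ T ∈ G, ∀ x y, T (Sum.elim x y) =
      Sum.elim (Function.update x i (x i + t * x k ^ 0))
      (Function.update y k (y k - t * (0 : ℕ) * x k ^ (0 - 1) * y i)) := by
  refine ⟨sy (t • X i), h t, ?_⟩
  intro x y
  rw [sy_elim, grad_smul, grad_X]
  congr 1
  · funext j
    by_cases hj : j = i
    · subst hj; simp
    · simp [hj]
  · funext j
    by_cases hj : j = k
    · subst hj; simp
    · simp [hj]

/-- the partial rotation in the `i`-th plane -/
lemma rotation (i : Fin n) (h1 : (X i ^ 2 : MvPolynomial (Fin n) K) ∈ MX G)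
    (h2 : (X i ^ 2 : MvPolynomial (Fin n) K) ∈ MY G) :
    ∃ R ∈ G, ∀ x y, R (Sum.elim x y) =
      Sum.elim (Function.update x i (y i)) (Function.update y i (-x i)) := by
  refine ⟨sy ((1 / 2 : K) • X i ^ 2) * sx ((-(1 / 2) : K) • X i ^ 2) *
    sy ((1 / 2 : K) • X i ^ 2), G.mul_mem (G.mul_mem (h2 _) (h1 _)) (h2 _), ?_⟩
  intro x y
  simp only [Equiv.Perm.mul_apply, sx_elim, sy_elim, grad_smul, grad_sq]
  congr 1
  · funext j
    by_cases hj : j = i
    · subst hj; simp <;> ring
    · simp [hj]
  · funext j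
    by_cases hj : j = i
    · subst hj; simp <;> ring
    · simp [hj]

lemma theta_rot (i k : Fin n) (hik : i ≠ k) (c : ℕ)
    (h1 : (X i ^ 2 : MvPolynomial (Fin n) K) ∈ MX G)
    (h2 : (X i ^ 2 : MvPolynomial (Fin n) K) ∈ MY G)
    (h3 : (X i * X k ^ c : MvPolynomial (Fin n) K) ∈ MX G) (t : K) :
    ∃ T ∈ G, ∀ x y, T (Sum.elim x y) =
      Sum.elim (Function.update x i (x i + t * x k ^ c))
      (Function.update y k (y k - t * c * x k ^ (c - 1) * y i)) := by
  classical
  obtain ⟨R, hRG, hR⟩ := rotation G i h1 h2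
  refine ⟨R * sx (t • (X i * X k ^ c)) * R⁻¹, G.mul_mem (G.mul_mem hRG (h3 t)) (G.inv_mem hRG), ?_⟩
  intro x y
  have hRi : R⁻¹ (Sum.elim x y) = Sum.elim (Function.update x i (-y i))
      (Function.update y i (x i)) := by
    rw [Equiv.Perm.inv_eq_iff_eq, hR]
    congr 1
    · funext j
      by_cases hj : j = i
      · subst hj; simp
      · simp [hj]
    · funext j
      by_cases hj : j = i
      · subst hj; simp
      · simp [hj]
  have hg : ∀ (z : Fin n → K) (j : Fin n), grad (t • (X i * X k ^ c)) z j =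
      t * ((if j = i then z k ^ c else 0) + (if j = k then c * z k ^ (c - 1) * z i else 0)) := by
    intro z j
    rw [grad_smul, Pi.smul_apply, smul_eq_mul, grad, pderiv_mul, pderiv_pow, pderiv_X, pderiv_X]
    by_cases h : j = i
    · subst h
      rw [Pi.single_eq_same, Pi.single_eq_of_ne (Ne.symm hik), if_pos rfl, if_neg hik]
      simp
    · rw [Pi.single_eq_of_ne (Ne.symm h), if_neg h]
      by_cases h' : j = k
      · subst h'
        rw [Pi.single_eq_same, if_pos rfl]
        simp only [map_add, map_mul, map_pow, eval_X, map_zero, map_natCast, mul_zero,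
          zero_mul, mul_one, zero_add, add_zero]
        ring
      · rw [Pi.single_eq_of_ne (Ne.symm h'), if_neg h']
        simp
  simp only [Equiv.Perm.mul_apply, hRi, sx_elim, hR]
  congr 1
  · funext j
    by_cases hj : j = i
    · subst hj
      simp only [Function.update_self, Pi.add_apply, hg, if_true, if_neg hik,
        Function.update_of_ne (Ne.symm hik)]
      ring
    · simp [hj]
  · funext j
    by_cases hj : j = i
    · subst hj
      rw [Function.update_self, Function.update_self, Function.update_of_ne hik]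
      ring
    · rw [Function.update_of_ne hj, Pi.add_apply, hg, if_neg hj]
      by_cases hjk : j = k
      · subst hjk
        rw [if_pos rfl, Function.update_self, Function.update_of_ne hj, Function.update_of_ne hj,
          Function.update_self]
        ring
      · rw [if_neg hjk, Function.update_of_ne hjk, Function.update_of_ne hj]
        ring

/-- the potential `x₀ + ∑ xᵢ xᵢ₊₁ + ∏ xᵢ²` -/
noncomputable def F2 (n : ℕ) (K : Type*) [Field K] : MvPolynomial (Fin n) K :=
  ∑ i : Fin n, ∑ j : Fin n, if (i : ℕ) + 1 = j then X i * X j else 0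

/-- the potential `∏ xᵢ²` -/
noncomputable def FD (n : ℕ) (K : Type*) [Field K] : MvPolynomial (Fin n) K := ∏ i, X i ^ 2

/-- the potential of the third subgroup -/
noncomputable def FF (n : ℕ) (K : Type*) [Field K] (hn : 2 ≤ n) : MvPolynomial (Fin n) K :=
  X ⟨0, by omega⟩ + F2 n K + FD n K

lemma scale_F2 (μ : K) : scale μ (F2 n K) = C μ ^ 2 * F2 n K := by
  simp only [F2, map_sum, Finset.mul_sum]
  apply Finset.sum_congr rfl
  intro i _
  apply Finset.sum_congr rfl
  intro j _
  split_ifs
  · simp [scale]; ring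
  · simp

lemma scale_FD (μ : K) : scale μ (FD n K) = C μ ^ (2 * n) * FD n K := by
  simp only [FD, map_prod, map_pow]
  have : ∀ i : Fin n, scale μ (X i : MvPolynomial (Fin n) K) ^ 2 = C μ ^ 2 * X i ^ 2 := by
    intro i
    simp [scale]; ring
  rw [Finset.prod_congr rfl (fun i _ => this i), Finset.prod_mul_distrib, Finset.prod_const,
    Finset.card_univ, Fintype.card_fin, ← pow_mul]

lemma components_mem (hn : 2 ≤ n) (h1 : q ∈ MX G) (h2 : q ∈ MY G) (h3 : FF n K hn ∈ MX G) :
    (X ⟨0, by omega⟩ : MvPolynomial (Fin n) K) ∈ MX G ∧ F2 n K ∈ MX G ∧ FD n K ∈ MX G := by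
  let P : Polynomial (MvPolynomial (Fin n) K) := Polynomial.C (X ⟨0, by omega⟩) * Polynomial.X ^ 1 +
    Polynomial.C (F2 n K) * Polynomial.X ^ 2 + Polynomial.C (FD n K) * Polynomial.X ^ (2 * n)
  have hP : ∀ t : K, t ≠ 0 → P.eval (C t) ∈ MX G := by
    intro t ht
    have h4 : P.eval (C t) = scale t (FF n K hn) := by
      rw [FF, map_add, map_add, scale_F2, scale_FD]
      simp [P, scale]
      ring
    rw [h4, MX_eq_MY G h1 h2]
    exact scale_mem_MY G h1 h2 h3 t ht
  have hc := coeff_mem (MX G) P hP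
  refine ⟨?_, ?_, ?_⟩
  · have := hc 1
    simp only [P, Polynomial.coeff_add, Polynomial.coeff_C_mul, Polynomial.coeff_X_pow,
      if_true] at this
    rw [if_neg (by omega), if_neg (by omega)] at this
    simpa using this
  · have := hc 2
    simp only [P, Polynomial.coeff_add, Polynomial.coeff_C_mul, Polynomial.coeff_X_pow,
      if_true] at this
    rw [if_neg (by omega), if_neg (by omega)] at this
    simpa using this
  · have := hc (2 * n)
    simp only [P, Polynomial.coeff_add, Polynomial.coeff_C_mul, Polynomial.coeff_X_pow,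
      if_true] at this
    rw [if_neg (by omega), if_neg (by omega)] at this
    simpa using this

lemma pderiv_mem (hn : 2 ≤ n) (h1 : q ∈ MX G) (h2 : q ∈ MY G) (i : Fin n)
    (hi : (X i : MvPolynomial (Fin n) K) ∈ MX G) {f : MvPolynomial (Fin n) K} (hf : f ∈ MX G) :
    pderiv i f ∈ MX G := by
  obtain ⟨k, hk⟩ : ∃ k : Fin n, i ≠ k := by
    by_cases h : (i : ℕ) = 0
    · exact ⟨⟨1, by omega⟩, fun h' => by rw [h'] at h; simp at h⟩
    · exact ⟨⟨0, by omega⟩, fun h' => h (by rw [h'])⟩
  have := step' G i k hk 0 (theta_translation G i k (by rwa [MX_eq_MY G h1 h2] at hi)) hf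
  simpa using this

lemma pderiv_F2 (l : Fin n) : pderiv l (F2 n K) =
    (∑ j : Fin n, if (l : ℕ) + 1 = j then X j else 0) +
    ∑ i : Fin n, if (i : ℕ) + 1 = l then X i else 0 := by
  classical
  simp only [F2, map_sum]
  have h1 : ∀ i j : Fin n, pderiv l (if (i : ℕ) + 1 = j then X i * X j else 0 :
      MvPolynomial (Fin n) K) = (if i = l then (if (i : ℕ) + 1 = j then X j else 0) else 0) +
        (if j = l then (if (i : ℕ) + 1 = j then X i else 0) else 0) := by
    intro i j
    by_cases h : (i : ℕ) + 1 = j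
    · rw [if_pos h, if_pos h, if_pos h, pderiv_mul, pderiv_X, pderiv_X]
      congr 1
      · by_cases hi : i = l
        · subst hi; simp
        · rw [Pi.single_eq_of_ne hi, if_neg hi, zero_mul]
      · by_cases hj : j = l
        · subst hj; simp
        · rw [Pi.single_eq_of_ne hj, if_neg hj, mul_zero]
    · rw [if_neg h, if_neg h, if_neg h]; simp
  simp only [h1, Finset.sum_add_distrib]
  congr 1
  · rw [Finset.sum_eq_single l]
    · simp
    · intro b _ hb
      simp [hb]
    · intro h
      exact absurd (Finset.mem_univ l) h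
  · apply Finset.sum_congr rfl
    intro i _
    rw [Finset.sum_ite_eq' Finset.univ l]
    simp

lemma X_mem (hn : 2 ≤ n) (h1 : q ∈ MX G) (h2 : q ∈ MY G) (h3 : FF n K hn ∈ MX G) :
    ∀ (m : ℕ) (hm : m < n), (X ⟨m, hm⟩ : MvPolynomial (Fin n) K) ∈ MX G := by
  obtain ⟨hX, hF2, -⟩ := components_mem G hn h1 h2 h3
  intro m
  induction m using Nat.strong_induction_on with
  | _ m ih =>
    intro hm
    rcases m with _ | m
    · exact hX
    · have hm' : m < n := by omega
      have h4 := pderiv_mem G hn h1 h2 ⟨m, hm'⟩ (ih m (by omega) hm') hF2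
      rw [pderiv_F2] at h4
      have h5 : (∑ i : Fin n, if (i : ℕ) + 1 = ((⟨m, hm'⟩ : Fin n) : ℕ) then
          (X i : MvPolynomial (Fin n) K) else 0) ∈ MX G := by
        apply Submodule.sum_mem
        intro i _
        split_ifs with hi
        · simp only at hi
          exact ih i (by omega) i.2
        · exact Submodule.zero_mem _
      have h6 := Submodule.sub_mem _ h4 h5
      rw [add_sub_cancel_right] at h6
      have h7 : (∑ j : Fin n, if ((⟨m, hm'⟩ : Fin n) : ℕ) + 1 = j then
          (X j : MvPolynomial (Fin n) K) else 0) = X ⟨m + 1, hm⟩ := by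
        rw [Finset.sum_eq_single ⟨m + 1, hm⟩]
        · simp
        · intro b _ hb
          rw [if_neg]
          intro h
          apply hb
          exact Fin.ext h.symm
        · intro h
          exact absurd (Finset.mem_univ _) h
      rwa [h7] at h6

/-- the exponent `(2, …, 2)` -/
noncomputable def two (n : ℕ) : Fin n →₀ ℕ := Finsupp.equivFunOnFinite.symm (fun _ => 2)

@[simp] lemma two_apply (n : ℕ) (i : Fin n) : two n i = 2 := rfl

lemma FD_eq : FD n K = monomial (two n) 1 := by
  rw [monomial_eq, FD]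
  simp [Finsupp.prod_fintype]

lemma monomial_le_mem (hn : 2 ≤ n) (h1 : q ∈ MX G) (h2 : q ∈ MY G) (h3 : FF n K hn ∈ MX G) :
    ∀ (d : ℕ) (γ : Fin n →₀ ℕ), γ ≤ two n → (two n - γ).degree = d →
      (monomial γ 1 : MvPolynomial (Fin n) K) ∈ MX G := by
  classical
  obtain ⟨-, -, hFD⟩ := components_mem G hn h1 h2 h3
  intro d
  induction d with
  | zero =>
    intro γ hγ hd
    rw [Finsupp.degree_eq_zero_iff] at hd
    have : two n = γ := by
      have := tsub_add_cancel_of_le hγ
      rw [hd, zero_add] at this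
      exact this.symm
    rw [← this, ← FD_eq]
    exact hFD
  | succ d ih =>
    intro γ hγ hd
    obtain ⟨i, hi⟩ : ∃ i, (two n - γ) i ≠ 0 := by
      by_contra h
      push Not at h
      have : two n - γ = 0 := Finsupp.ext h
      rw [this] at hd
      simp at hd
    have hi' : γ i < 2 := by
      rw [Finsupp.tsub_apply, two_apply] at hi
      omega
    have hle : γ + Finsupp.single i 1 ≤ two n := by
      intro j
      by_cases hj : j = i
      · subst hj; simp; omega
      · have := hγ j
        simpa [Finsupp.single_apply, Ne.symm hj] using this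
    have hdeg : (two n - (γ + Finsupp.single i 1)).degree = d := by
      have e1 : two n - γ = (two n - (γ + Finsupp.single i 1)) + Finsupp.single i 1 := by
        ext j
        by_cases hj : j = i
        · subst hj; simp; omega
        · simp [Finsupp.single_apply, Ne.symm hj]
      have e2 : (two n - γ).degree = (two n - (γ + Finsupp.single i 1)).degree + 1 := by
        conv_lhs => rw [e1]
        rw [map_add, Finsupp.degree_single]
      omega
    have h4 := ih _ hle hdeg
    have h5 := pderiv_mem G hn h1 h2 i (X_mem G hn h1 h2 h3 i i.2) h4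
    rw [pderiv_monomial, add_tsub_cancel_right, one_mul] at h5
    have h6 := Submodule.smul_mem _ ((((γ + Finsupp.single i 1 : Fin n →₀ ℕ) i : ℕ) : K)⁻¹) h5
    rw [smul_monomial, smul_eq_mul, inv_mul_cancel₀] at h6
    · exact h6
    · simp only [Finsupp.coe_add, Pi.add_apply, Finsupp.single_eq_same]
      exact Nat.cast_ne_zero.mpr (Nat.succ_ne_zero _)

lemma sq_mem (hn : 2 ≤ n) (h1 : q ∈ MX G) (h2 : q ∈ MY G) (h3 : FF n K hn ∈ MX G) (i : Fin n) :
    (X i ^ 2 : MvPolynomial (Fin n) K) ∈ MX G := by
  have : (X i ^ 2 : MvPolynomial (Fin n) K) = monomial (Finsupp.single i 2) 1 := by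
    rw [X_pow_eq_monomial]
  rw [this]
  refine monomial_le_mem G hn h1 h2 h3 _ _ ?_ rfl
  intro j
  classical
  rw [Finsupp.single_apply, two_apply]
  split_ifs <;> omega

lemma X_mul_sq_mem (hn : 2 ≤ n) (h1 : q ∈ MX G) (h2 : q ∈ MY G) (h3 : FF n K hn ∈ MX G)
    (i k : Fin n) (hik : i ≠ k) :
    (X i * X k ^ 2 : MvPolynomial (Fin n) K) ∈ MX G := by
  have : (X i * X k ^ 2 : MvPolynomial (Fin n) K) =
      monomial (Finsupp.single i 1 + Finsupp.single k 2) 1 := by
    rw [X_pow_eq_monomial, X, monomial_mul, one_mul]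
  rw [this]
  refine monomial_le_mem G hn h1 h2 h3 _ _ ?_ rfl
  intro j
  classical
  rw [Finsupp.add_apply, Finsupp.single_apply, Finsupp.single_apply, two_apply]
  split_ifs with e1 e2 <;> first | omega | (exact absurd (e1.trans e2.symm) hik)

lemma X_mul_pow_mem (hn : 2 ≤ n) (h1 : q ∈ MX G) (h2 : q ∈ MY G) (h3 : FF n K hn ∈ MX G)
    (i k : Fin n) (hik : i ≠ k) (c : ℕ) :
    (X i * X k ^ c : MvPolynomial (Fin n) K) ∈ MX G := by
  classical
  induction c with
  | zero => rw [pow_zero, mul_one]; exact X_mem G hn h1 h2 h3 i i.2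
  | succ c ih =>
    have hs := sq_mem G hn h1 h2 h3 i
    have h4 := step' G i k hik c (theta_rot G i k hik c hs (by rwa [MX_eq_MY G h1 h2] at hs) ih)
      (X_mul_sq_mem G hn h1 h2 h3 k i (Ne.symm hik))
    have h5 : X k ^ c * pderiv i (X k * X i ^ 2 : MvPolynomial (Fin n) K) =
        (2 : K) • (X i * X k ^ (c + 1)) := by
      rw [pderiv_mul, pderiv_X, Pi.single_eq_of_ne (Ne.symm hik), pderiv_pow, pderiv_X_self,
        smul_eq_C_mul, map_ofNat]
      ring
    rw [h5] at h4
    have h6 := Submodule.smul_mem _ (2⁻¹ : K) h4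
    rwa [smul_smul, inv_mul_cancel₀ two_ne_zero, one_smul] at h6

lemma monomial_mem (hn : 2 ≤ n) (h1 : q ∈ MX G) (h2 : q ∈ MY G) (h3 : FF n K hn ∈ MX G)
    (s : Finset (Fin n)) : ∀ α : Fin n →₀ ℕ, α.support ⊆ s →
      (monomial α 1 : MvPolynomial (Fin n) K) ∈ MX G := by
  classical
  induction s using Finset.induction_on with
  | empty =>
    intro α hα
    have : α = 0 := by
      rw [← Finsupp.support_eq_empty]
      exact Finset.subset_empty.mp hα
    subst this
    have h4 := pderiv_mem G hn h1 h2 ⟨0, by omega⟩ (X_mem G hn h1 h2 h3 0 (by omega))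
      (X_mem G hn h1 h2 h3 0 (by omega))
    rw [pderiv_X_self] at h4
    exact h4
  | insert k s hk ih =>
    intro α hα
    -- remove `x_k`
    let α' : Fin n →₀ ℕ := α.erase k
    have hα' : α'.support ⊆ s := by
      intro j hj
      rw [Finsupp.support_erase, Finset.mem_erase] at hj
      exact (Finset.mem_insert.mp (hα hj.2)).resolve_left hj.1
    have hsplit : (monomial α 1 : MvPolynomial (Fin n) K) = X k ^ (α k) * monomial α' 1 := by
      rw [X_pow_eq_monomial, monomial_mul, one_mul, Finsupp.single_add_erase]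
    -- choose another index
    by_cases h0 : α' = 0
    · obtain ⟨i, hik⟩ : ∃ i : Fin n, i ≠ k := by
        by_cases h : (k : ℕ) = 0
        · exact ⟨⟨1, by omega⟩, fun h' => by rw [← h'] at h; simp at h⟩
        · exact ⟨⟨0, by omega⟩, fun h' => h (by rw [← h'])⟩
      have h4 := pderiv_mem G hn h1 h2 i (X_mem G hn h1 h2 h3 i i.2)
        (X_mul_pow_mem G hn h1 h2 h3 i k hik (α k))
      rw [pderiv_mul, pderiv_X_self, pderiv_pow, pderiv_X, Pi.single_eq_of_ne (Ne.symm hik)] at h4
      rw [hsplit, h0]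
      simpa using h4
    · obtain ⟨i, hi⟩ : ∃ i, α' i ≠ 0 := by
        by_contra h
        push Not at h
        exact h0 (Finsupp.ext h)
      have his : i ∈ s := hα' (Finsupp.mem_support_iff.mpr hi)
      have hik : i ≠ k := fun h => hk (h ▸ his)
      have h4 : (monomial (α' + Finsupp.single i 1) 1 : MvPolynomial (Fin n) K) ∈ MX G := by
        apply ih
        intro j hj
        rcases Finset.mem_union.mp (Finsupp.support_add hj) with h | h
        · exact hα' h
        · rw [Finsupp.support_single i one_ne_zero, Finset.mem_singleton] at h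
          rw [h]; exact his
      have hs := sq_mem G hn h1 h2 h3 i
      have h5 := step' G i k hik (α k) (theta_rot G i k hik (α k) hs
        (by rwa [MX_eq_MY G h1 h2] at hs) (X_mul_pow_mem G hn h1 h2 h3 i k hik (α k))) h4
      rw [pderiv_monomial, add_tsub_cancel_right, one_mul] at h5
      have h6 := Submodule.smul_mem _ ((((α' + Finsupp.single i 1 : Fin n →₀ ℕ) i : ℕ) : K)⁻¹) h5
      rw [← mul_smul_comm, smul_monomial, smul_eq_mul, inv_mul_cancel₀] at h6
      · rw [hsplit]; exact h6
      · simp only [Finsupp.coe_add, Pi.add_apply, Finsupp.single_eq_same]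
        exact Nat.cast_ne_zero.mpr (Nat.succ_ne_zero _)

theorem MX_top (hn : 2 ≤ n) (h1 : q ∈ MX G) (h2 : q ∈ MY G) (h3 : FF n K hn ∈ MX G) :
    MX G = ⊤ := by
  rw [eq_top_iff]
  rintro f -
  rw [f.as_sum]
  apply Submodule.sum_mem
  intro α _
  have : (monomial α (coeff α f) : MvPolynomial (Fin n) K) = coeff α f • monomial α 1 := by
    rw [smul_monomial, smul_eq_mul, mul_one]
  rw [this]
  exact Submodule.smul_mem _ _ (monomial_mem G hn h1 h2 h3 Finset.univ α (Finset.subset_univ _))

end generate

/-! ### Transitivity -/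

section trans

variable [CharZero K]

/-- polynomials with prescribed gradients at finitely many points -/
lemma exists_grad (s : Finset (Fin n → K)) (b : (Fin n → K) → (Fin n → K)) :
    ∃ f : MvPolynomial (Fin n) K, ∀ a ∈ s, grad f a = b a := by
  classical
  -- delta polynomials
  have hδ : ∀ a : Fin n → K, ∃ δ : MvPolynomial (Fin n) K, eval a δ = 1 ∧
      ∀ c ∈ s, c ≠ a → eval c δ = 0 := by
    intro a
    have h1 : ∀ c : Fin n → K, ∃ l : MvPolynomial (Fin n) K, (c ≠ a → eval a l = 1 ∧
        eval c l = 0) := by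
      intro c
      by_cases hc : c = a
      · exact ⟨0, fun h => absurd hc h⟩
      · obtain ⟨i, hi⟩ := Function.ne_iff.mp hc
        refine ⟨C ((a i - c i)⁻¹) * (X i - C (c i)), fun _ => ?_⟩
        have : a i - c i ≠ 0 := sub_ne_zero.mpr (Ne.symm hi)
        simp [this]
    choose l hl using h1
    refine ⟨∏ c ∈ s.erase a, l c, ?_, ?_⟩
    · rw [map_prod]
      apply Finset.prod_eq_one
      intro c hc
      exact (hl c (Finset.ne_of_mem_erase hc)).1
    · intro c hc hca
      rw [map_prod]
      exact Finset.prod_eq_zero (Finset.mem_erase.mpr ⟨hca, hc⟩) (hl c hca).2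
  choose δ hδ1 hδ2 using hδ
  refine ⟨∑ a ∈ s, δ a ^ 2 * ∑ i, C (b a i) * (X i - C (a i)), ?_⟩
  intro a ha
  funext j
  have key : ∀ c ∈ s, eval a (pderiv j (δ c ^ 2 * ∑ i, C (b c i) * (X i - C (c i)))) =
      if c = a then b a j else 0 := by
    intro c hc
    rw [pderiv_mul, pderiv_pow, map_sum]
    have h2 : ∀ i, pderiv j (C (b c i) * (X i - C (c i)) : MvPolynomial (Fin n) K) =
        if i = j then C (b c i) else 0 := by
      intro i
      rw [pderiv_C_mul, map_sub, pderiv_C, sub_zero, pderiv_X]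
      by_cases hi : i = j
      · subst hi; simp
      · rw [Pi.single_eq_of_ne hi, if_neg hi, mul_zero]
    rw [Finset.sum_congr rfl (fun i _ => h2 i), Finset.sum_ite_eq' Finset.univ j]
    by_cases hca : c = a
    · subst hca
      simp [hδ1]
    · rw [if_neg hca]
      have := hδ2 c a ha (Ne.symm hca)
      simp [this]
  rw [grad, map_sum, map_sum, Finset.sum_congr rfl key, Finset.sum_ite_eq' s a, if_pos ha]

/-- make the `x`-coordinates distinct -/
lemma exists_separating (hn : 0 < n) (m : ℕ) (x y : Fin m → Fin n → K)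
    (hxy : ∀ i j, x i = x j → y i = y j → i = j) :
    ∃ f : MvPolynomial (Fin n) K, Function.Injective fun i => x i + grad f (y i) := by
  classical
  let s : Finset (Fin n → K) := Finset.univ.image y
  -- an injection of the set of `y`-values into `K`
  obtain ⟨ι, hι⟩ : ∃ ι : (Fin n → K) → K, ∀ a ∈ s, ∀ b ∈ s, ι a = ι b → a = b := by
    refine ⟨fun a => if h : a ∈ s then ((s.equivFin ⟨a, h⟩ : ℕ) : K) else 0, ?_⟩
    intro a ha b hb hab
    simp only [dif_pos ha, dif_pos hb] at hab
    have h1 := Nat.cast_injective (R := K) hab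
    have h2 := s.equivFin.injective (Fin.ext h1)
    exact congrArg Subtype.val h2
  -- a scalar avoiding finitely many values
  let bad : Finset K := Finset.univ.image fun ij : Fin m × Fin m =>
    (x ij.2 ⟨0, hn⟩ - x ij.1 ⟨0, hn⟩) / (ι (y ij.1) - ι (y ij.2))
  obtain ⟨t, ht⟩ := Infinite.exists_notMem_finset bad
  obtain ⟨f, hf⟩ := exists_grad s (fun a => Pi.single ⟨0, hn⟩ (t * ι a))
  refine ⟨f, ?_⟩
  intro i j hij
  simp only at hij
  have hi : y i ∈ s := Finset.mem_image_of_mem _ (Finset.mem_univ i)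
  have hj : y j ∈ s := Finset.mem_image_of_mem _ (Finset.mem_univ j)
  rw [hf _ hi, hf _ hj] at hij
  by_cases hy : y i = y j
  · rw [hy] at hij
    exact hxy i j (add_right_cancel hij) hy
  · exfalso
    have hne : ι (y i) - ι (y j) ≠ 0 := by
      rw [sub_ne_zero]
      exact fun h => hy (hι _ hi _ hj h)
    have h0 := congrFun hij ⟨0, hn⟩
    simp only [Pi.add_apply, Pi.single_eq_same] at h0
    apply ht
    refine Finset.mem_image.mpr ⟨(i, j), Finset.mem_univ _, ?_⟩
    rw [div_eq_iff hne]
    linear_combination -h0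

theorem transitive_of_top (hn : 0 < n) (G : Subgroup (Equiv.Perm (Pt n K))) (hX : MX G = ⊤)
    (hY : MY G = ⊤) : InfinitelyTransitive G := by
  classical
  have hsx : ∀ f, sx f ∈ G := fun f => sx_mem (by rw [hX]; trivial)
  have hsy : ∀ f, sy f ∈ G := fun f => sy_mem (by rw [hY]; trivial)
  -- move everything to the standard tuple
  have std : ∀ (m : ℕ) (p : Fin m → Pt n K), Function.Injective p → ∃ h ∈ G, ∀ i,
      h (p i) = Sum.elim (Pi.single ⟨0, hn⟩ ((i : ℕ) : K)) 0 := by
    intro m p hp
    obtain ⟨f1, hf1⟩ := exists_separating hn m (fun i => p i ∘ Sum.inl) (fun i => p i ∘ Sum.inr) (by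
      intro i j h1 h2
      apply hp
      rw [← Sum.elim_comp_inl_inr (p i), ← Sum.elim_comp_inl_inr (p j)]
      rw [h1, h2])
    let x1 : Fin m → Fin n → K := fun i => p i ∘ Sum.inl + grad f1 (p i ∘ Sum.inr)
    let y0 : Fin m → Fin n → K := fun i => p i ∘ Sum.inr
    have hx1 : Function.Injective x1 := hf1
    let e : Fin m → Fin n → K := fun i => Pi.single ⟨0, hn⟩ ((i : ℕ) : K)
    have he : Function.Injective e := by
      intro i j hij
      have h0 := congrFun hij ⟨0, hn⟩
      simp only [e, Pi.single_eq_same] at h0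
      exact Fin.ext (Nat.cast_injective h0)
    -- prescribing gradients along an injective family
    have hpre : ∀ (a : Fin m → Fin n → K) (b : Fin m → Fin n → K), Function.Injective a →
        ∃ f : MvPolynomial (Fin n) K, ∀ i, grad f (a i) = b i := by
      intro a b ha
      obtain ⟨f, hf⟩ := exists_grad (Finset.univ.image a) (Function.extend a b 0)
      refine ⟨f, fun i => ?_⟩
      rw [hf (a i) (Finset.mem_image_of_mem _ (Finset.mem_univ i)), ha.extend_apply]
    obtain ⟨f2, hf2⟩ := hpre x1 (fun i => e i - y0 i) hx1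
    obtain ⟨f3, hf3⟩ := hpre e (fun i => e i - x1 i) he
    obtain ⟨f4, hf4⟩ := hpre e (fun i => - e i) he
    refine ⟨sx f4 * sy f3 * sx f2 * sy f1, G.mul_mem (G.mul_mem (G.mul_mem (hsx _) (hsy _))
      (hsx _)) (hsy _), ?_⟩
    intro i
    have e0 : p i = Sum.elim (p i ∘ Sum.inl) (y0 i) := (Sum.elim_comp_inl_inr (p i)).symm
    have e1 : sy f1 (p i) = Sum.elim (x1 i) (y0 i) := by
      rw [e0, sy_elim]
    rw [Equiv.Perm.mul_apply, Equiv.Perm.mul_apply, Equiv.Perm.mul_apply, e1, sx_elim, hf2,
      add_sub_cancel, sy_elim, hf3, add_sub_cancel, sx_elim, hf4, add_neg_cancel]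
  intro m x y hx hy
  obtain ⟨g, hg, hgx⟩ := std m x hx
  obtain ⟨h, hh, hhy⟩ := std m y hy
  refine ⟨h⁻¹ * g, G.mul_mem (G.inv_mem hh) hg, fun i => ?_⟩
  rw [Equiv.Perm.mul_apply, hgx, ← hhy i]
  exact Equiv.symm_apply_apply h (y i)

end trans

/-! ### The three subgroups -/

section final

variable [CharZero K]

/-- the polynomial `f` in the variables `x` resp. `y` -/
noncomputable def embX (f : MvPolynomial (Fin n) K) : MvPolynomial (Fin n ⊕ Fin n) K :=
  rename Sum.inl f

noncomputable def embY (f : MvPolynomial (Fin n) K) : MvPolynomial (Fin n ⊕ Fin n) K :=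
  rename Sum.inr f

lemma eval_embX (f : MvPolynomial (Fin n) K) (p : Pt n K) :
    eval p (embX f) = eval (p ∘ Sum.inl) f := by
  rw [embX, eval_rename]

lemma eval_embY (f : MvPolynomial (Fin n) K) (p : Pt n K) :
    eval p (embY f) = eval (p ∘ Sum.inr) f := by
  rw [embY, eval_rename]

/-- the hessian is symmetric -/
lemma pderiv_comm (f : MvPolynomial (Fin n) K) (i j : Fin n) :
    pderiv i (pderiv j f) = pderiv j (pderiv i f) := by
  classical
  have hX : ∀ a b c : Fin n, pderiv a (pderiv b (X c : MvPolynomial (Fin n) K)) = 0 := by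
    intro a b c
    rw [pderiv_X]
    by_cases h : c = b
    · subst h; simp
    · rw [Pi.single_eq_of_ne h, map_zero]
  induction f using MvPolynomial.induction_on with
  | C a => simp
  | add p q hp hq => rw [map_add, map_add, hp, hq, map_add, map_add]
  | mul_X p k hp =>
    simp only [pderiv_mul, map_add, hX, hp]
    ring

lemma pderiv_embX_inl (f : MvPolynomial (Fin n) K) (j : Fin n) :
    pderiv (Sum.inl j) (embX f) = embX (pderiv j f) :=
  pderiv_rename Sum.inl_injective j f

lemma pderiv_embY_inr (f : MvPolynomial (Fin n) K) (j : Fin n) :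
    pderiv (Sum.inr j) (embY f) = embY (pderiv j f) :=
  pderiv_rename Sum.inr_injective j f

lemma pderiv_embX_inr (f : MvPolynomial (Fin n) K) (j : Fin n) :
    pderiv (Sum.inr j) (embX f) = 0 := by
  classical
  induction f using MvPolynomial.induction_on with
  | C a => simp [embX]
  | add p q hp hq =>
    have : embX (p + q) = embX p + embX q := by simp [embX]
    rw [this, map_add, hp, hq, add_zero]
  | mul_X p k hp =>
    have : embX (p * X k) = embX p * X (Sum.inl k) := by simp [embX]
    rw [this, pderiv_mul, hp, pderiv_X, Pi.single_eq_of_ne (by simp)]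
    simp

lemma pderiv_embY_inl (f : MvPolynomial (Fin n) K) (j : Fin n) :
    pderiv (Sum.inl j) (embY f) = 0 := by
  classical
  induction f using MvPolynomial.induction_on with
  | C a => simp [embY]
  | add p q hp hq =>
    have : embY (p + q) = embY p + embY q := by simp [embY]
    rw [this, map_add, hp, hq, add_zero]
  | mul_X p k hp =>
    have : embY (p * X k) = embY p * X (Sum.inr k) := by simp [embY]
    rw [this, pderiv_mul, hp, pderiv_X, Pi.single_eq_of_ne (by simp)]
    simp

lemma sum_sym (H : Fin n → Fin n → K) (hH : ∀ i j, H i j = H j i) (u v : Fin n → K) :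
    ∑ i, u i * ∑ j, H i j * v j = ∑ i, (∑ j, H i j * u j) * v i := by
  simp only [Finset.mul_sum, Finset.sum_mul]
  rw [Finset.sum_comm]
  apply Finset.sum_congr rfl
  intro i _
  apply Finset.sum_congr rfl
  intro j _
  rw [hH j i]; ring

lemma sx_symplectic (f : MvPolynomial (Fin n) K) : IsSymplectic (sx f) := by
  classical
  refine ⟨Sum.elim (fun i => X (Sum.inl i)) (fun i => X (Sum.inr i) + embX (pderiv i f)), ?_, ?_⟩
  · intro p i
    obtain ⟨x, y, rfl⟩ := pt_cases p
    rcases i with i | i
    · simp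
    · simp [eval_embX, grad]
  · intro p u v
    have h1 : ∀ (w : Pt n K) (i : Fin n), ∑ j, eval p (pderiv j (Sum.elim (fun i => X (Sum.inl i))
        (fun i => X (Sum.inr i) + embX (pderiv i f)) (Sum.inl i) :
          MvPolynomial (Fin n ⊕ Fin n) K)) * w j = w (Sum.inl i) := by
      intro w i
      rw [Finset.sum_eq_single (Sum.inl i)]
      · simp
      · intro b _ hb
        rw [Sum.elim_inl, pderiv_X, Pi.single_eq_of_ne (Ne.symm hb)]; simp
      · intro h
        exact absurd (Finset.mem_univ _) h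
    have h2 : ∀ (w : Pt n K) (i : Fin n), ∑ j, eval p (pderiv j (Sum.elim (fun i => X (Sum.inl i))
        (fun i => X (Sum.inr i) + embX (pderiv i f)) (Sum.inr i) :
          MvPolynomial (Fin n ⊕ Fin n) K)) * w j = w (Sum.inr i) +
          ∑ j, eval (p ∘ Sum.inl) (pderiv j (pderiv i f)) * w (Sum.inl j) := by
      intro w i
      rw [Fintype.sum_sum_type, add_comm]
      congr 1
      · rw [Finset.sum_eq_single i]
        · rw [Sum.elim_inr, map_add, pderiv_X_self, pderiv_embX_inr]; simp
        · intro b _ hb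
          rw [Sum.elim_inr, map_add, pderiv_X, Pi.single_eq_of_ne
            (fun h => hb (Sum.inr_injective h).symm), pderiv_embX_inr]
          simp
        · intro h
          exact absurd (Finset.mem_univ _) h
      · apply Finset.sum_congr rfl
        intro j _
        rw [Sum.elim_inr, map_add, pderiv_X, Pi.single_eq_of_ne (by simp), pderiv_embX_inl,
          zero_add, eval_embX]
    simp only [omega, h1, h2]
    have h3 := sum_sym (fun i j => eval (p ∘ Sum.inl) (pderiv j (pderiv i f)))
      (fun i j => by rw [pderiv_comm]) (fun i => u (Sum.inl i)) (fun i => v (Sum.inl i))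
    simp only [mul_add, add_mul, Finset.sum_sub_distrib, Finset.sum_add_distrib] at h3 ⊢
    rw [h3]
    ring

lemma sy_symplectic (f : MvPolynomial (Fin n) K) : IsSymplectic (sy f) := by
  classical
  refine ⟨Sum.elim (fun i => X (Sum.inl i) + embY (pderiv i f)) (fun i => X (Sum.inr i)), ?_, ?_⟩
  · intro p i
    obtain ⟨x, y, rfl⟩ := pt_cases p
    rcases i with i | i
    · simp [eval_embY, grad]
    · simp
  · intro p u v
    have h1 : ∀ (w : Pt n K) (i : Fin n), ∑ j, eval p (pderiv j (Sum.elim (fun i => X (Sum.inl i)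
        + embY (pderiv i f)) (fun i => X (Sum.inr i)) (Sum.inr i) :
          MvPolynomial (Fin n ⊕ Fin n) K)) * w j = w (Sum.inr i) := by
      intro w i
      rw [Finset.sum_eq_single (Sum.inr i)]
      · simp
      · intro b _ hb
        rw [Sum.elim_inr, pderiv_X, Pi.single_eq_of_ne (Ne.symm hb)]; simp
      · intro h
        exact absurd (Finset.mem_univ _) h
    have h2 : ∀ (w : Pt n K) (i : Fin n), ∑ j, eval p (pderiv j (Sum.elim (fun i => X (Sum.inl i)
        + embY (pderiv i f)) (fun i => X (Sum.inr i)) (Sum.inl i) :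
          MvPolynomial (Fin n ⊕ Fin n) K)) * w j = w (Sum.inl i) +
          ∑ j, eval (p ∘ Sum.inr) (pderiv j (pderiv i f)) * w (Sum.inr j) := by
      intro w i
      rw [Fintype.sum_sum_type]
      congr 1
      · rw [Finset.sum_eq_single i]
        · rw [Sum.elim_inl, map_add, pderiv_X_self, pderiv_embY_inl]; simp
        · intro b _ hb
          rw [Sum.elim_inl, map_add, pderiv_X, Pi.single_eq_of_ne
            (fun h => hb (Sum.inl_injective h).symm), pderiv_embY_inl]
          simp
        · intro h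
          exact absurd (Finset.mem_univ _) h
      · apply Finset.sum_congr rfl
        intro j _
        rw [Sum.elim_inl, map_add, pderiv_X, Pi.single_eq_of_ne (by simp), pderiv_embY_inr,
          zero_add, eval_embY]
    simp only [omega, h1, h2]
    have h3 := sum_sym (fun i j => eval (p ∘ Sum.inr) (pderiv j (pderiv i f)))
      (fun i j => by rw [pderiv_comm]) (fun i => u (Sum.inr i)) (fun i => v (Sum.inr i))
    simp only [mul_add, add_mul, Finset.sum_sub_distrib, Finset.sum_add_distrib] at h3 ⊢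
    rw [h3]
    ring

/-- the one-parameter group of `x`-shears -/
noncomputable def rx (f : MvPolynomial (Fin n) K) : Multiplicative K →* Equiv.Perm (Pt n K) where
  toFun t := sx (t.toAdd • f)
  map_one' := by rw [toAdd_one, zero_smul, sx_zero]
  map_mul' s t := by rw [toAdd_mul, add_smul, sx_add]

/-- the one-parameter group of `y`-shears -/
noncomputable def ry (f : MvPolynomial (Fin n) K) : Multiplicative K →* Equiv.Perm (Pt n K) where
  toFun t := sy (t.toAdd • f)
  map_one' := by rw [toAdd_one, zero_smul, sy_zero]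
  map_mul' s t := by rw [toAdd_mul, add_smul, sy_add]

lemma rx_ga (f : MvPolynomial (Fin n) K) (x : Fin n → K) (hx : grad f x ≠ 0) :
    IsGaSubgroup (rx f).range := by
  refine ⟨rx f, ⟨Sum.elim (fun i => X (some (Sum.inl i))) (fun i => X (some (Sum.inr i)) +
    X none * rename (some ∘ Sum.inl) (pderiv i f)), ?_⟩, ?_, rfl⟩
  · intro t p i
    obtain ⟨x, y, rfl⟩ := pt_cases p
    have he : ∀ g : MvPolynomial (Fin n) K, eval (fun o : Option (Fin n ⊕ Fin n) =>
        o.elim t (Sum.elim x y)) (rename (some ∘ Sum.inl) g) = eval x g := by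
      intro g
      rw [eval_rename]
      rfl
    change sx (t • f) (Sum.elim x y) i = _
    rw [sx_elim, grad_smul]
    rcases i with i | i
    · simp
    · simp [he, grad]
  · refine ⟨Multiplicative.ofAdd 1, fun h => hx ?_⟩
    have h1 : sx ((1 : K) • f) = 1 := h
    have h2 := congrArg (fun e : Equiv.Perm (Pt n K) => e (Sum.elim x 0)) h1
    simp only [one_smul, sx_elim, Equiv.Perm.one_apply, zero_add] at h2
    have h3 := congrArg (fun p : Pt n K => p ∘ Sum.inr) h2
    simpa using h3

lemma ry_ga (f : MvPolynomial (Fin n) K) (x : Fin n → K) (hx : grad f x ≠ 0) :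
    IsGaSubgroup (ry f).range := by
  refine ⟨ry f, ⟨Sum.elim (fun i => X (some (Sum.inl i)) +
    X none * rename (some ∘ Sum.inr) (pderiv i f)) (fun i => X (some (Sum.inr i))), ?_⟩, ?_, rfl⟩
  · intro t p i
    obtain ⟨x, y, rfl⟩ := pt_cases p
    have he : ∀ g : MvPolynomial (Fin n) K, eval (fun o : Option (Fin n ⊕ Fin n) =>
        o.elim t (Sum.elim x y)) (rename (some ∘ Sum.inr) g) = eval y g := by
      intro g
      rw [eval_rename]
      rfl
    change sy (t • f) (Sum.elim x y) i = _
    rw [sy_elim, grad_smul]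
    rcases i with i | i
    · simp [he, grad]
    · simp
  · refine ⟨Multiplicative.ofAdd 1, fun h => hx ?_⟩
    have h1 : sy ((1 : K) • f) = 1 := h
    have h2 := congrArg (fun e : Equiv.Perm (Pt n K) => e (Sum.elim 0 x)) h1
    simp only [one_smul, sy_elim, Equiv.Perm.one_apply, zero_add] at h2
    have h3 := congrArg (fun p : Pt n K => p ∘ Sum.inl) h2
    simpa using h3

lemma grad_FF (hn : 2 ≤ n) : grad (FF n K hn) 0 ⟨0, by omega⟩ = 1 := by
  classical
  rw [grad, FF]
  rw [(pderiv _).map_add, (pderiv _).map_add, pderiv_X_self, pderiv_F2, FD_eq, pderiv_monomial,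
    map_add, map_add, map_one, map_add, eval_monomial]
  have h1 : eval (0 : Fin n → K) (∑ j : Fin n, if ((⟨0, by omega⟩ : Fin n) : ℕ) + 1 = j then
      (X j : MvPolynomial (Fin n) K) else 0) = 0 := by
    rw [map_sum]
    apply Finset.sum_eq_zero
    intro j _
    split_ifs <;> simp
  have h2 : eval (0 : Fin n → K) (∑ i : Fin n, if (i : ℕ) + 1 = ((⟨0, by omega⟩ : Fin n) : ℕ) then
      (X i : MvPolynomial (Fin n) K) else 0) = 0 := by
    rw [map_sum]
    apply Finset.sum_eq_zero
    intro j _
    split_ifs <;> simp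
  have h3 : ((two n - Finsupp.single (⟨0, by omega⟩ : Fin n) 1).prod
      fun i e => (0 : Fin n → K) i ^ e) = 0 := by
    have h4 : (two n - Finsupp.single (⟨0, by omega⟩ : Fin n) 1 : Fin n →₀ ℕ)
        ⟨1, by omega⟩ = 2 := by
      rw [Finsupp.tsub_apply, two_apply, Finsupp.single_eq_of_ne (by simp)]
      norm_num
    apply Finset.prod_eq_zero (i := (⟨1, by omega⟩ : Fin n))
    · rw [Finsupp.mem_support_iff, h4]; norm_num
    · rw [h4]; simp
  rw [h1, h2, h3]
  simp

end final

/-- For every field `K` of characteristic zero and every `n ≥ 2` there are three `𝔾ₐ`-subgroups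
of `Aut(𝔸²ⁿ)`, each consisting of symplectomorphisms, which generate a group acting infinitely
transitively on `𝔸²ⁿ`. -/
theorem result (K : Type*) [Field K] [CharZero K] (n : ℕ) (hn : 2 ≤ n) :
    ∃ U₁ U₂ U₃ : Subgroup (Equiv.Perm (Pt n K)),
      IsGaSubgroup U₁ ∧ IsGaSubgroup U₂ ∧ IsGaSubgroup U₃ ∧
      (∀ g ∈ U₁, IsSymplectic g) ∧ (∀ g ∈ U₂, IsSymplectic g) ∧ (∀ g ∈ U₃, IsSymplectic g) ∧
      InfinitelyTransitive (U₁ ⊔ U₂ ⊔ U₃) := by
  have hq : grad (q : MvPolynomial (Fin n) K) 1 ≠ 0 := by
    rw [grad_q]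
    intro h
    have := congrFun h ⟨0, by omega⟩
    simp at this
  have hF : grad (FF n K hn) 0 ≠ 0 := by
    intro h
    have h1 := grad_FF (K := K) hn
    rw [h] at h1
    simp at h1
  refine ⟨(rx q).range, (ry q).range, (rx (FF n K hn)).range, rx_ga q 1 hq, ry_ga q 1 hq,
    rx_ga _ 0 hF, ?_, ?_, ?_, ?_⟩
  · rintro g ⟨t, rfl⟩
    exact sx_symplectic _
  · rintro g ⟨t, rfl⟩
    exact sy_symplectic _
  · rintro g ⟨t, rfl⟩
    exact sx_symplectic _
  · set G := (rx (q : MvPolynomial (Fin n) K)).range ⊔ (ry (q : MvPolynomial (Fin n) K)).range ⊔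
      (rx (FF n K hn)).range with hG
    have h1 : q ∈ MX G := by
      intro t
      apply (le_sup_left.trans le_sup_left : (rx (q : MvPolynomial (Fin n) K)).range ≤ G)
      exact ⟨Multiplicative.ofAdd t, rfl⟩
    have h2 : q ∈ MY G := by
      intro t
      apply (le_sup_right.trans le_sup_left : (ry (q : MvPolynomial (Fin n) K)).range ≤ G)
      exact ⟨Multiplicative.ofAdd t, rfl⟩
    have h3 : FF n K hn ∈ MX G := by
      intro t
      apply (le_sup_right : (rx (FF n K hn)).range ≤ G)
      exact ⟨Multiplicative.ofAdd t, rfl⟩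
    have h4 := MX_top G hn h1 h2 h3
    exact transitive_of_top (by omega) G h4 (by rw [← MX_eq_MY G h1 h2, h4])

end Pool.Agent.Results.MP_e86abc_ag.ThreeSymplecticSubgroups
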